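import Mathlib

/-! # [H85 SF] THEOREM SF (special fields): the statement of the hand-in

`AtInf p G`: every point at infinity of `G = 0` over a number field `L` with a real embedding has a zero of `p` in `L`.
`GenusLE G g`: the genus of the curve `G = 0` is at most `g`, by Riemann's inequality: for the function field `L = ℚ(x,y)`,
`G(x,y) = 0`, every `ξ` of `L` transcendental over `ℚ` and every `N` the space of the functions `φ` with divisor
`(φ) + N (ξ)_∞ ≥ 0` (`φ` integral over `ℚ[ξ]`, `φ/ξ^N` integral over `ℚ[1/ξ]`) has dimension at least `N [L : ℚ(ξ)] + 1 - g`.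
`Special p B κ`: `p ∈ ℤ[X]` is monic, irreducible, of degree `r ≥ 2`, `B` is not smaller than the Mahler measure of `p`, and every real zero
`α` of `p` has a rational approximation `u/v`, `|u|, v ≤ B`, with `|α - u/v|^r (2^r B)^κ ≤ 1`. -/

namespace Pool.Agent.H85.SF

open MvPolynomial

/-- every point at infinity of the curve `G = 0` over a number field `L` with a real embedding has a zero of `p` in `L` -/
def AtInf (p : Polynomial ℤ) (G : MvPolynomial (Fin 2) ℤ) : Prop :=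
  ∀ (L : Type) [Field L] [NumberField L], Nonempty (L →+* ℝ) → ∀ X Y : LaurentSeries L,
    eval₂ (Int.castRingHom (LaurentSeries L)) ![X, Y] G = 0 →
      (X ∈ (HahnSeries.ofPowerSeries ℤ L).range ∧ Y ∈ (HahnSeries.ofPowerSeries ℤ L).range) ∨
        ∃ z : L, Polynomial.aeval z p = 0

/-- Riemann's inequality with the number `g`: the genus of `G = 0` is at most `g` -/
def GenusLE (G : MvPolynomial (Fin 2) ℤ) (g : ℕ) : Prop :=
  ∀ (L : Type) [Field L] [CharZero L] (x y : L), eval₂ (Int.castRingHom L) ![x, y] G = 0 →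
    IntermediateField.adjoin ℚ {x, y} = ⊤ → ∀ ξ : L, Transcendental ℚ ξ → ∀ N : ℕ,
      ∃ (m : ℕ) (φ : Fin m → L), LinearIndependent ℚ φ ∧
        (∀ i, IsIntegral (Algebra.adjoin ℚ {ξ}) (φ i) ∧
          IsIntegral (Algebra.adjoin ℚ {ξ⁻¹}) (φ i / ξ ^ N)) ∧
        N * Module.finrank (IntermediateField.adjoin ℚ {ξ}) L + 1 ≤ m + g

/-- `p` is monic, irreducible, of degree `r ≥ 2`, of Mahler measure at most `B`, and all real zeros of `p` are very close to
rational numbers of height at most `B` -/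
def Special (p : Polynomial ℤ) (B κ : ℕ) : Prop :=
  p.Monic ∧ Irreducible p ∧ 2 ≤ p.natDegree ∧ (p.map (Int.castRingHom ℂ)).mahlerMeasure ≤ B ∧
    ∀ α : ℝ, Polynomial.aeval α p = 0 → ∃ u v : ℤ, 1 ≤ v ∧ |u| ≤ B ∧ v ≤ B ∧
      |α - u / v| ^ p.natDegree * (2 ^ p.natDegree * B) ^ κ ≤ 1

/-- THEOREM SF -/
def Statement : Prop :=
  (∀ n : ℕ, ∃ E : ℕ, ∀ (g B H : ℕ) (p : Polynomial ℤ) (G : MvPolynomial (Fin 2) ℤ),
    Special p B (300 * (n + g)) → G.totalDegree ≤ n → Irreducible (map (Int.castRingHom ℚ) G) →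
      AtInf p G → GenusLE G g → 2 ≤ H → (∀ m, |coeff m G| ≤ (H : ℤ)) →
        ∀ x y : ℤ, eval ![x, y] G = 0 → max |x| |y| ≤ ((B : ℤ) * H) ^ E) ∧
  ∀ r a κ : ℕ, Odd r → 3 ≤ r → 2 ^ r ≤ a → 2 * κ ≤ (r - 1) ^ 2 →
    Special (Polynomial.X ^ r - Polynomial.C (a : ℤ) * Polynomial.X ^ (r - 1) - 1) (2 * a) κ

end Pool.Agent.H85.SF
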