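import Pool.Agent.H85.SF.Gej
import Pool.Agent.H90.SF.Jet

/-! # [SF J7] JETS with levels: the end theorem of chapter J

As `jets` (H90/SF/Jet.lean) with pole order `2W` and jets of order `4W`; the jets of level `u < i₀ W` at the points over `J` are surjective as soon as
`i₀ |J| ≤ r + i₀ - 1` (`i₀ = 1, 2, 3, 4`). Condition: `3 γ + r s ≤ s W (r - 3)`. -/

namespace Pool.Agent.H85.SF

open Pool.Agent.H90.SF Pool.Agent.H82.NS Pool.Agent.H8.OA Pool.Agent.H12.ON Pool.Agent.H12.OG IntermediateField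

/-- the expansions of a basis `φ` of the functions of pole order at most `2W`, with coefficients `b k i u ∈ k[T]` -/
structure BasL (k : Type) {L : Type} [Field k] [Field L] [Algebra k L] (x : L) (O : ValuationSubring L)
    (P : Polynomial k) (g π : L) (s : ℕ) (z : Fin s → L) (W m : ℕ) (φ : Fin m → L) (g' : L)
    (b : Fin m → Fin s → Fin (4 * W) → Polynomial k) : Prop where
  m1 : 0 < m
  li : LinearIndependent k φ
  int : ∀ i, IsInt k x (φ i)
  pol : ∀ i, π ^ (2 * W) * φ i ∈ O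
  gO : g' ∈ O
  gm : g' - g ∈ O.nonunits
  Pg : Polynomial.aeval g' P / π ^ (4 * W) ∈ O
  exp : ∀ j, (π ^ (2 * W) * φ j - ∑ i, ∑ u : Fin (4 * W), Polynomial.aeval g' (b j i u) * z i * π ^ (u : ℕ)) /
    π ^ (4 * W) ∈ O

/-- surjectivity onto the jets with levels -/
def SjL {k : Type} [Field k] (P : Polynomial k) {s W m : ℕ} (b : Fin m → Fin s → Fin (4 * W) → Polynomial k)
    (F : Type) [Field F] [Algebra k F] : Prop :=
  ∀ (al : Fin P.natDegree → F), Function.Injective al → (∀ j, Polynomial.aeval (al j) P = 0) →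
    ∀ i₀ : ℕ, 1 ≤ i₀ → i₀ ≤ 4 → ∀ J : Finset (Fin P.natDegree), i₀ * J.card + 1 ≤ P.natDegree + i₀ →
      ∀ c : Fin P.natDegree → Fin s → Fin (4 * W) → F, ∃ w : Fin m → F, ∀ j ∈ J, ∀ i, ∀ u : Fin (4 * W),
        (u : ℕ) < i₀ * W → ∑ l, w l * Polynomial.aeval (al j) (b l i u) = c j i u

theorem jel_sj {k L F : Type} [Field k] [CharZero k] [Field L] [Algebra k L] {x : L} {O : ValuationSubring L}
    {P : Polynomial k} {g π : L} {s γ : ℕ} {z : Fin s → L} (h : Pt k x O P g π s γ z) (hρ0 : 0 < P.natDegree * s) {N U : ℕ}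
    (hm0 : 2 * γ / (P.natDegree * s) + 1 ≤ N) {m : ℕ} {φ : Fin m → L}
    (hφs : ∀ a ∈ LS k x O π N, a ∈ Submodule.span k (Set.range φ))
    {g' : L} (hg' : g' ∈ O) (hgm : g' - g ∈ O.nonunits) (hPg : Polynomial.aeval g' P / π ^ U ∈ O)
    (B : Fin m → Fin s → ℕ → Polynomial k) (r : Fin m → L) (hr : ∀ l, r l ∈ O)
    (hB : ∀ l, π ^ N * φ l = (∑ i, ∑ j ∈ Finset.range U,
      Polynomial.aeval g' (B l i j) * z i * π ^ j) + r l * π ^ U)
    [Field F] [Algebra k F] [IsAlgClosed F] [Algebra.IsAlgebraic k F]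
    (al : Fin P.natDegree → F) (hal : Function.Injective al) (hroot : ∀ j, Polynomial.aeval (al j) P = 0)
    (J : Finset (Fin P.natDegree))
    (hJ : U * (s * J.card) + γ ≤ P.natDegree * s * (N - (2 * γ / (P.natDegree * s) + 1)))
    (c : Fin P.natDegree → Fin s → ℕ → F) :
    ∃ w : Fin m → F, ∀ j ∈ J, ∀ i, ∀ u < U, ∑ l, w l * Polynomial.aeval (al j) (B l i u) = c j i u := by
  classical
  have hg : g ∈ O := Pool.Agent.H12.GN.gO h.inf.base h.irr h.Pg
  have hπ : π ∈ O := O.nonunits_subset h.πm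
  obtain ⟨e, he⟩ := esx (F := F) h
  obtain ⟨E, hEd⟩ : ∃ E : Fin (P.natDegree * s) → L → PowerSeries F, ∀ q a, E q a = jtp (e q a) :=
    ⟨fun q a => jtp (e q a), fun _ _ => rfl⟩
  have hE : ∀ q, JEh k O π (E q) := by
    intro q
    have h1 : E q = fun a => jtp (e q a) := funext fun a => hEd q a
    rw [h1]
    exact jeh_of he q
  have hc0 : ∀ q a, (e q a).coeff 0 = PowerSeries.constantCoeff (E q a) := by
    intro q a
    rw [hEd]
    exact jt_c0 q a
  -- the root over which q lies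
  have hjx : ∀ q, ∃ j, (e q g).coeff 0 = al j := by
    intro q
    have h1 : Polynomial.aeval ((e q g).coeff 0) P = 0 := by
      rw [hc0, ← jt_cc, ← ((hE q).aev hg P).2]
      exact (hE q).non h.π0 h.πm h.unf h.Pg
    have hP0 : P.map (algebraMap k F) ≠ 0 := Polynomial.map_ne_zero h.irr.ne_zero
    have h3 : Finset.univ.image al = (P.map (algebraMap k F)).roots.toFinset := by
      apply Finset.eq_of_subset_of_card_le
      · intro a ha
        obtain ⟨j, -, rfl⟩ := Finset.mem_image.1 ha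
        rw [Multiset.mem_toFinset, Polynomial.mem_roots hP0, Polynomial.IsRoot.def,
          Polynomial.eval_map_algebraMap]
        exact hroot j
      · rw [Finset.card_image_of_injective _ hal, Finset.card_fin]
        exact (Multiset.toFinset_card_le _).trans ((Polynomial.card_roots' _).trans Polynomial.natDegree_map_le)
    have h4 : (e q g).coeff 0 ∈ Finset.univ.image al := by
      rw [h3, Multiset.mem_toFinset, Polynomial.mem_roots hP0, Polynomial.IsRoot.def,
        Polynomial.eval_map_algebraMap]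
      exact h1
    obtain ⟨j, -, hj⟩ := Finset.mem_image.1 h4
    exact ⟨j, hj.symm⟩
  choose jj hjj using hjx
  have hg2 : ∀ q, (PowerSeries.X : PowerSeries F) ^ U ∣ E q g' - PowerSeries.C (al (jj q)) := by
    intro q
    have h0 : PowerSeries.constantCoeff (E q g') = al (jj q) := by
      have h2 := (hE q).non h.π0 h.πm h.unf hgm
      rw [(hE q).sub, map_sub, sub_eq_zero] at h2
      rw [h2, ← hc0, hjj]
    have h3 : (PowerSeries.X : PowerSeries F) ^ U ∣ Polynomial.aeval (E q g') P := by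
      rw [← ((hE q).aev hg' P).2]
      have h5 : Polynomial.aeval g' P = π ^ U * (Polynomial.aeval g' P / π ^ U) :=
        (mul_div_cancel₀ _ (pow_ne_zero _ h.π0)).symm
      rw [h5, (hE q).mul _ (O.pow_mem hπ _) _ hPg, (hE q).pow hπ, (hE q).pi]
      exact Dvd.intro _ rfl
    have h8 := jt_root h.irr (f := E q g') (N := U) (by rw [h0]; exact hroot _) h3
    rw [h0] at h8
    exact h8
  -- the number of points over a root
  have hfib : ∀ j, (Finset.univ.filter fun q => jj q = j).card ≤ s := by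
    intro j
    refine jt_card (fun q i => (e q (z i)).coeff 0) jj j ?_
    intro c
    obtain ⟨n, a, w, ha, hw⟩ := he.sur c
    choose A hA using fun i => h.zs (a i) (ha i)
    refine ⟨fun i => ∑ t, w t * Polynomial.aeval (al j) (A t i), fun q hq => ?_⟩
    rw [← hw q]
    have h1 : ∀ t, (e q (a t)).coeff 0 = ∑ i, Polynomial.aeval (al j) (A t i) * (e q (z i)).coeff 0 := by
      intro t
      have h2 := (hE q).non h.π0 h.πm h.unf (hA t)
      rw [(hE q).sub, map_sub, sub_eq_zero, (hE q).sum, map_sum] at h2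
      rw [hc0, h2]
      refine Finset.sum_congr rfl fun i _ => ?_
      rw [(hE q).mul _ ((hE q).aev hg _).1 _ (h.zO i), map_mul, ((hE q).aev hg _).2, jt_cc, ← hc0, ← hc0, hjj, hq]
    have h2 : ∑ t, w t * (e q (a t)).coeff 0 =
        ∑ t, ∑ i, w t * (Polynomial.aeval (al j) (A t i) * (e q (z i)).coeff 0) :=
      Finset.sum_congr rfl fun t _ => by rw [h1 t, Finset.mul_sum]
    rw [h2, Finset.sum_comm]
    refine Finset.sum_congr rfl fun i _ => ?_
    rw [Finset.sum_mul]
    exact Finset.sum_congr rfl fun t _ => by ring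
  obtain ⟨T, hT⟩ : ∃ T : Finset (Fin (P.natDegree * s)), T = Finset.univ.filter (fun q => jj q ∈ J) := ⟨_, rfl⟩
  have hTc : U * T.card + γ ≤ P.natDegree * s * (N - (2 * γ / (P.natDegree * s) + 1)) := by
    have h1 : T.card ≤ s * J.card := by
      rw [Finset.card_eq_sum_card_fiberwise (f := jj) (s := T) (t := J) (fun q hq => by
        rw [hT, Finset.coe_filter] at hq
        exact hq.2)]
      calc ∑ b ∈ J, (T.filter fun q => jj q = b).card ≤ ∑ b ∈ J, s :=
            Finset.sum_le_sum fun b _ => (Finset.card_le_card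
              (Finset.filter_subset_filter _ (Finset.subset_univ _))).trans (hfib b)
        _ = s * J.card := by rw [Finset.sum_const, smul_eq_mul, mul_comm]
    exact (Nat.add_le_add_right (Nat.mul_le_mul_left U h1) γ).trans hJ
  -- the prescribed principal parts
  obtain ⟨τ, hτ⟩ : ∃ τ : Fin (P.natDegree * s) → LaurentSeries F, ∀ q, τ q =
      HahnSeries.single (-(N : ℤ)) 1 * HahnSeries.ofPowerSeries ℤ F
        (∑ i, ∑ u : Fin U, PowerSeries.C (c (jj q) i u) * E q (z i) * PowerSeries.X ^ (u : ℕ)) :=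
    ⟨_, fun _ => rfl⟩
  have hτP : ∀ q, Pole (τ q) (N : ℤ) := by
    intro q i hi
    rw [hτ, HahnSeries.coeff_single_mul, one_mul, PowerSeries.coeff_coe, if_pos (by omega)]
  obtain ⟨ψ, hψ, hψT⟩ := gej h hρ0 hm0 he hTc hτP
  obtain ⟨w, hw⟩ := jt_span hφs hψ
  refine ⟨w, fun j hj => ?_⟩
  have hshift : ∀ q l (n : ℕ), (e q (φ l)).coeff ((n : ℤ) - (N : ℤ)) =
      PowerSeries.coeff n (E q (π ^ N * φ l)) := by
    intro q l n
    rw [hEd, jtp_coeff, map_mul, map_pow, he.pi, HahnSeries.single_pow, one_pow, HahnSeries.coeff_single_mul,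
      one_mul, nsmul_eq_mul, mul_one]
  have hkey : ∀ q, jj q = j → ∀ n < U, PowerSeries.coeff n (∑ i, ∑ u : Fin U,
      PowerSeries.C ((∑ l, w l * Polynomial.aeval (al j) (B l i u)) - c j i u) * E q (z i) *
        PowerSeries.X ^ (u : ℕ)) = 0 := by
    intro q hq n hn
    have hqT : q ∈ T := by
      rw [hT, Finset.mem_filter]
      exact ⟨Finset.mem_univ q, by rw [hq]; exact hj⟩
    have h1 := hψT q hqT ((n : ℤ) - (N : ℤ)) (by omega)
    rw [HahnSeries.coeff_sub, hw, sub_eq_zero, hτ, HahnSeries.coeff_single_mul, one_mul,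
      show (n : ℤ) - (N : ℤ) - -(N : ℤ) = (n : ℤ) by ring,
      HahnSeries.ofPowerSeries_apply_coeff, hq] at h1
    have h2 : ∀ l, (e q (φ l)).coeff ((n : ℤ) - (N : ℤ)) = PowerSeries.coeff n
        (∑ i, ∑ u : Fin U, PowerSeries.C (Polynomial.aeval (al j) (B l i u)) * E q (z i) *
          PowerSeries.X ^ (u : ℕ)) := by
      intro l
      rw [hshift]
      have h3 := (hE q).expd hπ h.zO hg' (hg2 q) (B l) (hr l) (hB l)
      rw [PowerSeries.X_pow_dvd_iff] at h3
      have h4 := h3 n hn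
      rw [map_sub, sub_eq_zero, hq] at h4
      exact h4
    have h2' : ∑ l, w l * (e q (φ l)).coeff ((n : ℤ) - (N : ℤ)) =
        ∑ l, w l * PowerSeries.coeff n (∑ i, ∑ u : Fin U,
          PowerSeries.C (Polynomial.aeval (al j) (B l i u)) * E q (z i) * PowerSeries.X ^ (u : ℕ)) :=
      Finset.sum_congr rfl fun l _ => by rw [h2 l]
    rw [h2'] at h1
    have h5 : (∑ i, ∑ u : Fin U,
        PowerSeries.C ((∑ l, w l * Polynomial.aeval (al j) (B l i u)) - c j i u) * E q (z i) *
          PowerSeries.X ^ (u : ℕ)) =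
        (∑ l, PowerSeries.C (w l) * (∑ i, ∑ u : Fin U,
          PowerSeries.C (Polynomial.aeval (al j) (B l i u)) * E q (z i) * PowerSeries.X ^ (u : ℕ))) -
        (∑ i, ∑ u : Fin U, PowerSeries.C (c j i u) * E q (z i) * PowerSeries.X ^ (u : ℕ)) := by
      have h6 : (∑ l, PowerSeries.C (w l) * (∑ i, ∑ u : Fin U,
          PowerSeries.C (Polynomial.aeval (al j) (B l i u)) * E q (z i) * PowerSeries.X ^ (u : ℕ))) =
          ∑ i, ∑ u : Fin U, ∑ l, PowerSeries.C (w l) *
            (PowerSeries.C (Polynomial.aeval (al j) (B l i u)) * E q (z i) * PowerSeries.X ^ (u : ℕ)) := by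
        simp only [Finset.mul_sum]
        rw [Finset.sum_comm]
        exact Finset.sum_congr rfl fun i _ => Finset.sum_comm
      rw [h6, ← Finset.sum_sub_distrib]
      refine Finset.sum_congr rfl fun i _ => ?_
      rw [← Finset.sum_sub_distrib]
      refine Finset.sum_congr rfl fun u _ => ?_
      rw [map_sub, map_sum, sub_mul, sub_mul, Finset.sum_mul, Finset.sum_mul]
      congr 1
      refine Finset.sum_congr rfl fun l _ => ?_
      rw [map_mul]
      ring
    rw [h5, map_sub, map_sum, h1, sub_eq_zero]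
    exact Finset.sum_congr rfl fun l _ => PowerSeries.coeff_C_mul _ _ _
  have htri := jt_tri (fun q i => E q (z i)) (fun q => jj q = j) (fun d hd =>
    jt_ind h hg he hal hjj j d (fun q hq => by
      rw [← hd q hq]
      exact Finset.sum_congr rfl fun i _ => by rw [hc0])) _ hkey
  intro i u hu
  have h1 := htri u hu i
  exact sub_eq_zero.1 h1


private theorem jel_aev {k L : Type} [Field k] [Field L] [Algebra k L] {O : ValuationSubring L}
    (hb : ∀ c : k, algebraMap k L c ∈ O) {g : L} (hg : g ∈ O) (A : Polynomial k) : Polynomial.aeval g A ∈ O := by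
  rw [Polynomial.aeval_eq_sum_range]
  refine O.toSubring.sum_mem fun i _ => ?_
  rw [Algebra.smul_def]
  exact O.mul_mem _ _ (hb _) (O.toSubring.pow_mem hg _)

private theorem jel_trunc {L : Type} [Field L] {O : ValuationSubring L} {π : L} (hπ : π ∈ O) {s : ℕ}
    (f : Fin s → ℕ → L) (hf : ∀ i j, f i j ∈ O) {M U : ℕ} (hU : U ≤ M) {r : L} (hr : r ∈ O) :
    ∃ r' ∈ O, (∑ i, ∑ j ∈ Finset.range M, f i j * π ^ j) + r * π ^ M =
      (∑ i, ∑ j ∈ Finset.range U, f i j * π ^ j) + r' * π ^ U := by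
  obtain ⟨V, rfl⟩ := Nat.exists_eq_add_of_le hU
  refine ⟨(∑ i, ∑ j ∈ Finset.range V, f i (U + j) * π ^ j) + r * π ^ V, ?_, ?_⟩
  · refine O.add_mem _ _ (O.toSubring.sum_mem fun i _ => O.toSubring.sum_mem fun j _ => ?_) ?_
    · exact O.mul_mem _ _ (hf i _) (O.toSubring.pow_mem hπ j)
    · exact O.mul_mem _ _ hr (O.toSubring.pow_mem hπ V)
  · rw [add_mul, Finset.sum_mul, ← add_assoc, ← Finset.sum_add_distrib]
    congr 1
    · refine Finset.sum_congr rfl fun i _ => ?_
      rw [Finset.sum_range_add, Finset.sum_mul]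
      congr 1
      refine Finset.sum_congr rfl fun j _ => ?_
      rw [pow_add]
      ring
    · rw [pow_add]
      ring

private theorem jel_num {r s γ W i₀ J : ℕ} (hr : 4 ≤ r) (hs : 1 ≤ s) (hW : 3 * γ + r * s ≤ s * W * (r - 3))
    (h4 : i₀ ≤ 4) (hJ : i₀ * J + 1 ≤ r + i₀) :
    2 * γ / (r * s) + 1 ≤ 2 * W ∧ i₀ * W * (s * J) + γ ≤ r * s * (2 * W - (2 * γ / (r * s) + 1)) := by
  obtain ⟨t, rfl⟩ : ∃ t, r = t + 3 := ⟨r - 3, by omega⟩
  rw [Nat.add_sub_cancel] at hW
  have h1 : (t + 3) * s * (2 * γ / ((t + 3) * s) + 1) ≤ 2 * γ + (t + 3) * s := by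
    have := Nat.div_mul_le_self (2 * γ) ((t + 3) * s)
    nlinarith
  set m := 2 * γ / ((t + 3) * s) + 1 with hm
  have h0 : 0 < (t + 3) * s := Nat.mul_pos (by omega) hs
  have h2 : m ≤ W := by
    refine Nat.le_of_mul_le_mul_left (c := (t + 3) * s) ?_ h0
    nlinarith
  refine ⟨by omega, ?_⟩
  obtain ⟨a, ha⟩ : ∃ a, 2 * W = m + a := ⟨2 * W - m, by omega⟩
  rw [ha, Nat.add_sub_cancel_left]
  have h3 : i₀ * W * (s * J) ≤ (t + 6) * (s * W) := by
    have h5 : i₀ * J ≤ t + 6 := by omega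
    calc i₀ * W * (s * J) = (i₀ * J) * (s * W) := by ring
      _ ≤ _ := Nat.mul_le_mul_right _ h5
  have h6 : (t + 3) * s * (2 * W) = (t + 3) * s * m + (t + 3) * s * a := by rw [ha]; ring
  nlinarith

theorem jetsL {k L : Type} [Field k] [CharZero k] [Field L] [Algebra k L] {x : L} {O : ValuationSubring L}
    {P : Polynomial k} {g π : L} {s γ : ℕ} {z : Fin s → L} (h : Pt k x O P g π s γ z) (hr : 4 ≤ P.natDegree) {W : ℕ}
    (hW : 3 * γ + P.natDegree * s ≤ s * W * (P.natDegree - 3)) :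
    ∃ (m : ℕ) (φ : Fin m → L) (g' : L) (b : Fin m → Fin s → Fin (4 * W) → Polynomial k),
      BasL k x O P g π s z W m φ g' b ∧
      ∀ (F : Type) [Field F] [Algebra k F] [IsAlgClosed F] [Algebra.IsAlgebraic k F], SjL P b F := by
  have hbase : ∀ c : k, algebraMap k L c ∈ O := h.inf.base
  have hg : g ∈ O := Pool.Agent.H12.GN.gO hbase h.irr h.Pg
  have hπ : π ∈ O := O.nonunits_subset h.πm
  have hpos : 0 < P.natDegree * s := Nat.mul_pos (by omega) h.s1
  obtain ⟨m, φ, hφi, hφ, hφs, hm⟩ := ls_fin h (2 * W)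
  have hm1 : 0 < m := by
    obtain ⟨h1, h2⟩ := jel_num (i₀ := 0) (J := 0) hr h.s1 hW (by omega) (by omega)
    have h3 : P.natDegree * s * (2 * W - (2 * γ / (P.natDegree * s) + 1)) ≤ P.natDegree * s * (2 * W) :=
      Nat.mul_le_mul_left _ (Nat.sub_le _ _)
    omega
  obtain ⟨g', hg'O, hg'm, hg'P⟩ := Pool.Agent.H85.LK.nwt hbase h.π0 h.πm h.unf hg h.irr h.Pg (4 * W)
  have hsp := Pool.Agent.H12.GN.spc hbase h.zO hg hg'O hg'm h.zs
  have hex := fun j => Pool.Agent.H12.GN.exd h.π0 h.unf hsp (4 * W) (hφ j).2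
  choose B r hr' hB using hex
  refine ⟨m, φ, g', fun l i u => B l i u, ⟨hm1, hφi, fun i => (hφ i).1, fun i => (hφ i).2, hg'O, hg'm, hg'P,
    fun j => ?_⟩, ?_⟩
  · have h1 : ∑ i, ∑ u : Fin (4 * W), Polynomial.aeval g' (B j i u) * z i * π ^ (u : ℕ) =
        ∑ i, ∑ u ∈ Finset.range (4 * W), Polynomial.aeval g' (B j i u) * z i * π ^ u :=
      Finset.sum_congr rfl fun i _ =>
        (Finset.sum_range fun u => Polynomial.aeval g' (B j i u) * z i * π ^ u).symm
    rw [h1, hB j, add_sub_cancel_left, mul_div_cancel_right₀ _ (pow_ne_zero _ h.π0)]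
    exact hr' j
  · intro F _ _ _ _ al hal hroot i₀ h1 h4 J hJ c
    obtain ⟨hm0, hJ'⟩ := jel_num hr h.s1 hW h4 hJ
    have hU : i₀ * W ≤ 4 * W := Nat.mul_le_mul_right _ h4
    have htr := fun l => jel_trunc hπ (fun i j => Polynomial.aeval g' (B l i j) * z i) (fun i j =>
      O.mul_mem _ _ (jel_aev hbase hg'O _) (h.zO i)) hU (hr' l)
    choose r' hr'' hr3 using htr
    have hPg' : Polynomial.aeval g' P / π ^ (i₀ * W) ∈ O := by
      have h5 : Polynomial.aeval g' P / π ^ (i₀ * W) =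
          Polynomial.aeval g' P / π ^ (4 * W) * π ^ (4 * W - i₀ * W) := by
        rw [div_mul_eq_mul_div, div_eq_div_iff (pow_ne_zero _ h.π0) (pow_ne_zero _ h.π0), mul_assoc,
          ← pow_add, Nat.sub_add_cancel hU]
      rw [h5]
      exact O.mul_mem _ _ hg'P (O.toSubring.pow_mem hπ _)
    obtain ⟨w, hw⟩ := jel_sj h hpos hm0 hφs hg'O hg'm hPg' B r' hr'' (fun l => by rw [hB l, hr3 l]) al hal hroot J
      hJ' (fun j i u => if hu : u < 4 * W then c j i ⟨u, hu⟩ else 0)
    refine ⟨w, fun j hj i u hu => ?_⟩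
    rw [hw j hj i u hu, dif_pos u.2]

end Pool.Agent.H85.SF
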