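import Pool.Agent.H85.SF.Def

/-! # [H85 SF LIO] First consequences of `Special`: Liouville's inequality, coefficients -/

namespace Pool.Agent.H85.SF

open Polynomial

private theorem prod_bd (s : Multiset ℂ) (c : ℂ) :
    (s.map fun β => ‖c - β‖).prod ≤ (2 * max 1 ‖c‖) ^ s.card * (s.map fun β => max 1 ‖β‖).prod := by
  induction s using Multiset.induction with
  | empty => simp
  | cons a s ih =>
    rw [Multiset.map_cons, Multiset.prod_cons, Multiset.map_cons, Multiset.prod_cons,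
      Multiset.card_cons, pow_succ]
    have h1 : ‖c - a‖ ≤ 2 * max 1 ‖c‖ * max 1 ‖a‖ := by
      have h2 := norm_sub_le c a
      have h3 : (1 : ℝ) ≤ max 1 ‖c‖ := le_max_left _ _
      have h4 : ‖c‖ ≤ max 1 ‖c‖ := le_max_right _ _
      have h5 : (1 : ℝ) ≤ max 1 ‖a‖ := le_max_left _ _
      have h6 : ‖a‖ ≤ max 1 ‖a‖ := le_max_right _ _
      nlinarith
    have h0 : 0 ≤ (s.map fun β => ‖c - β‖).prod :=
      Multiset.prod_nonneg (by
        intro x hx
        obtain ⟨b, -, rfl⟩ := Multiset.mem_map.1 hx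
        exact norm_nonneg _)
    calc ‖c - a‖ * (s.map fun β => ‖c - β‖).prod
        ≤ (2 * max 1 ‖c‖ * max 1 ‖a‖) *
          ((2 * max 1 ‖c‖) ^ s.card * (s.map fun β => max 1 ‖β‖).prod) :=
          mul_le_mul h1 ih h0 (by positivity)
      _ = _ := by ring

theorem no_rat {p : ℤ[X]} (hm : p.Monic) (hi : Irreducible p) (h2 : 2 ≤ p.natDegree) (q : ℚ) :
    aeval q p ≠ 0 := by
  intro h
  have h1 : Irreducible (p.map (algebraMap ℤ ℚ)) :=
    (hm.irreducible_iff_irreducible_map_fraction_map).1 hi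
  have h3 : (p.map (algebraMap ℤ ℚ)).IsRoot q := by
    rw [IsRoot.def, eval_map_algebraMap]
    exact h
  have h4 : (p.map (algebraMap ℤ ℚ)).natDegree = 1 :=
    natDegree_eq_of_degree_eq_some (degree_eq_one_of_irreducible_of_root h1 h3)
  rw [hm.natDegree_map] at h4
  omega

/-- Liouville's inequality -/
theorem liou {p : ℤ[X]} (hm : p.Monic) (hi : Irreducible p) (h2 : 2 ≤ p.natDegree) {B : ℝ}
    (hB : (p.map (Int.castRingHom ℂ)).mahlerMeasure ≤ B) {α : ℝ} (hα : aeval α p = 0) {u v : ℤ}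
    (hv : 1 ≤ v) (hu : |(u : ℝ)| ≤ B) (hvB : (v : ℝ) ≤ B) :
    1 ≤ |α - u / v| * (2 ^ p.natDegree * B ^ (p.natDegree + 1)) := by
  have hv0 : (0 : ℝ) < v := by exact_mod_cast (by omega : (0 : ℤ) < v)
  have hv1 : (1 : ℝ) ≤ v := by exact_mod_cast hv
  have hB1 : 1 ≤ B := le_trans hv1 hvB
  set r := p.natDegree with hr
  set q : ℂ[X] := p.map (Int.castRingHom ℂ) with hq
  have hqm : q.Monic := hm.map _
  have hqd : q.natDegree = r := hm.natDegree_map _
  -- lower bound
  have h1 : (1 : ℝ) ≤ (v : ℝ) ^ r * |eval ((u : ℝ) / v) (p.map (algebraMap ℤ ℝ))| := by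
    refine one_le_pow_mul_abs_eval_div (by omega) ?_
    rw [eval_map_algebraMap]
    intro h
    refine no_rat hm hi h2 ((u : ℚ) / v) ?_
    have h3 : ((aeval ((u : ℚ) / v) p : ℚ) : ℝ) = aeval ((u : ℝ) / v) p := by
      have := aeval_algebraMap_apply (A := ℚ) ℝ ((u : ℚ) / v) p
      simp only [eq_ratCast] at this
      rw [← this]
      push_cast
      rfl
    rw [h] at h3
    exact_mod_cast h3
  -- upper bound
  have h3 : |eval ((u : ℝ) / v) (p.map (algebraMap ℤ ℝ))| = ‖eval ((u : ℂ) / v) q‖ := by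
    rw [eval_map_algebraMap, hq]
    have h4 : eval ((u : ℂ) / v) (p.map (Int.castRingHom ℂ)) = ((aeval ((u : ℝ) / v) p : ℝ) : ℂ) := by
      have h5 : (Int.castRingHom ℂ) = algebraMap ℤ ℂ := rfl
      rw [h5, eval_map_algebraMap]
      have := aeval_algebraMap_apply (A := ℝ) ℂ ((u : ℝ) / v) p
      simp only [Complex.coe_algebraMap] at this
      rw [← this]
      push_cast
      rfl
    rw [h4, Complex.norm_real, Real.norm_eq_abs]
  have hroot : (α : ℂ) ∈ q.roots := by
    rw [mem_roots hqm.ne_zero, IsRoot.def, hq]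
    have h5 : (Int.castRingHom ℂ) = algebraMap ℤ ℂ := rfl
    rw [h5, eval_map_algebraMap]
    have := aeval_algebraMap_apply (A := ℝ) ℂ α p
    simp only [Complex.coe_algebraMap] at this
    rw [this, hα, Complex.ofReal_zero]
  obtain ⟨s, hs⟩ := Multiset.exists_cons_of_mem hroot
  have hcard : s.card + 1 = r := by
    have h6 : q.roots.card = q.natDegree := splits_iff_card_roots.1 (IsAlgClosed.splits q)
    rw [hs, Multiset.card_cons, hqd] at h6
    exact h6
  set c : ℂ := (u : ℂ) / v with hc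
  have h6 : ‖eval c q‖ = ‖c - α‖ * (s.map fun β => ‖c - β‖).prod := by
    have h7 : q = (q.roots.map fun a => X - C a).prod := by
      have := (IsAlgClosed.splits q).eq_prod_roots
      rwa [hqm.leadingCoeff, C_1, one_mul] at this
    rw [h7, eval_multiset_prod, Multiset.map_map, hs, Multiset.map_cons, Multiset.prod_cons, norm_mul]
    congr 1
    · simp
    · have h8 : ∀ t : Multiset ℂ, ‖(t.map (eval c ∘ fun a => X - C a)).prod‖ = (t.map fun β => ‖c - β‖).prod := by
        intro t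
        induction t using Multiset.induction with
        | empty => simp
        | cons a t ih =>
          rw [Multiset.map_cons, Multiset.prod_cons, norm_mul, ih, Multiset.map_cons, Multiset.prod_cons]
          simp
      exact h8 s
  have hM : (s.map fun β => max 1 ‖β‖).prod ≤ B := by
    refine le_trans ?_ hB
    rw [mahlerMeasure_eq_leadingCoeff_mul_prod_roots, hqm.leadingCoeff, norm_one, one_mul, hs,
      Multiset.map_cons, Multiset.prod_cons]
    have h9 : (0 : ℝ) ≤ (s.map fun β => max 1 ‖β‖).prod :=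
      Multiset.prod_nonneg (by
        intro x hx
        obtain ⟨b, -, rfl⟩ := Multiset.mem_map.1 hx
        positivity)
    exact le_mul_of_one_le_left h9 (le_max_left _ _)
  have hcn : ‖c‖ = |(u : ℝ)| / v := by
    rw [hc, norm_div, Complex.norm_intCast, Complex.norm_intCast, abs_of_pos hv0]
  have hmax : (v : ℝ) * max 1 ‖c‖ ≤ B := by
    rw [hcn, mul_max_of_nonneg _ _ hv0.le, mul_one, mul_div_cancel₀ _ hv0.ne']
    exact max_le hvB hu
  have hca : ‖c - α‖ = |α - u / v| := by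
    have : c - (α : ℂ) = (((u : ℝ) / v - α : ℝ) : ℂ) := by
      rw [hc]
      push_cast
      rfl
    rw [this, Complex.norm_real, Real.norm_eq_abs, abs_sub_comm]
  have h10 := prod_bd s c
  have h11 : (0 : ℝ) ≤ (s.map fun β => ‖c - β‖).prod :=
    Multiset.prod_nonneg (by
      intro x hx
      obtain ⟨b, -, rfl⟩ := Multiset.mem_map.1 hx
      positivity)
  calc (1 : ℝ) ≤ (v : ℝ) ^ r * (|α - u / v| * (s.map fun β => ‖c - β‖).prod) := by
        rw [h3, h6, hca] at h1
        exact h1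
    _ ≤ (v : ℝ) ^ r * (|α - u / v| * ((2 * max 1 ‖c‖) ^ s.card * B)) := by
        gcongr
        exact h10.trans (by gcongr)
    _ = |α - u / v| * (2 ^ s.card * ((v : ℝ) * max 1 ‖c‖) ^ s.card * v * B) := by
        rw [← hcard]
        ring
    _ ≤ |α - u / v| * (2 ^ s.card * B ^ s.card * B * B) := by
        gcongr
    _ ≤ |α - u / v| * (2 ^ r * B ^ (r + 1)) := by
        rw [← hcard]
        refine mul_le_mul_of_nonneg_left ?_ (abs_nonneg _)
        have h12 : (0 : ℝ) ≤ 2 ^ s.card * B ^ (s.card + 1 + 1) := by positivity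
        calc (2 : ℝ) ^ s.card * B ^ s.card * B * B = 2 ^ s.card * B ^ (s.card + 1 + 1) := by ring
          _ ≤ 2 * (2 ^ s.card * B ^ (s.card + 1 + 1)) := by linarith
          _ = _ := by ring

theorem Special.B1 {p : ℤ[X]} {B κ : ℕ} (h : Special p B κ) : 1 ≤ B := by
  have h1 : (1 : ℝ) ≤ (p.map (Int.castRingHom ℂ)).mahlerMeasure := by
    refine one_le_mahlerMeasure_of_one_le_norm_leadingCoeff ?_
    rw [(h.1.map _).leadingCoeff, norm_one]
  exact_mod_cast h1.trans h.2.2.2.1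

theorem Special.kappa {p : ℤ[X]} {B κ : ℕ} (h : Special p B κ) {α : ℝ} (hα : aeval α p = 0) :
    κ ≤ p.natDegree * (p.natDegree + 1) := by
  obtain ⟨u, v, hv, hu, hvB, h1⟩ := h.2.2.2.2 α hα
  have hB1 : (1 : ℝ) ≤ B := by exact_mod_cast h.B1
  have h2 := liou h.1 h.2.1 h.2.2.1 h.2.2.2.1 hα hv (by exact_mod_cast hu) (by exact_mod_cast hvB)
  set r := p.natDegree with hr
  have hr2 : 2 ≤ r := h.2.2.1
  have hb : (1 : ℝ) < 2 ^ r * B := by
    have : (1 : ℝ) < 2 ^ r := one_lt_pow₀ (by norm_num) (by omega)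
    nlinarith
  refine (pow_le_pow_iff_right₀ hb).1 ?_
  have h3 : (1 : ℝ) ≤ (|α - u / v| * (2 ^ r * B ^ (r + 1))) ^ r := one_le_pow₀ h2
  calc (2 ^ r * (B : ℝ)) ^ κ ≤ (|α - u / v| * (2 ^ r * B ^ (r + 1))) ^ r * (2 ^ r * (B : ℝ)) ^ κ :=
        le_mul_of_one_le_left (by positivity) h3
    _ = (|α - u / v| ^ r * (2 ^ r * (B : ℝ)) ^ κ) * (2 ^ r * B ^ (r + 1)) ^ r := by
        rw [mul_pow]; ring
    _ ≤ 1 * (2 ^ r * B ^ (r + 1)) ^ r := by gcongr
    _ ≤ ((2 ^ r * (B : ℝ)) ^ (r + 1)) ^ r := by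
        rw [one_mul]
        gcongr
        rw [mul_pow]
        gcongr
        exact le_self_pow₀ (one_le_pow₀ (by norm_num)) (by omega)
    _ = (2 ^ r * (B : ℝ)) ^ (r * (r + 1)) := by
        rw [← pow_mul, Nat.mul_comm]

theorem Special.coeff {p : ℤ[X]} {B κ : ℕ} (h : Special p B κ) (i : ℕ) :
    |p.coeff i| ≤ 2 ^ p.natDegree * (B : ℤ) := by
  have h1 := norm_coeff_le_choose_mul_mahlerMeasure i (p.map (Int.castRingHom ℂ))
  rw [coeff_map, h.1.natDegree_map] at h1
  have h2 : ((p.natDegree.choose i : ℕ) : ℝ) ≤ 2 ^ p.natDegree := by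
    exact_mod_cast Nat.choose_le_two_pow _ _
  have h3 : (p.map (Int.castRingHom ℂ)).mahlerMeasure ≤ B := h.2.2.2.1
  have h4 : ‖(Int.castRingHom ℂ) (p.coeff i)‖ = |((p.coeff i : ℤ) : ℝ)| := by
    rw [eq_intCast, Complex.norm_intCast]
  rw [h4] at h1
  have h5 : |((p.coeff i : ℤ) : ℝ)| ≤ 2 ^ p.natDegree * (B : ℝ) :=
    h1.trans (mul_le_mul h2 h3 (mahlerMeasure_nonneg _) (by positivity))
  exact_mod_cast h5

theorem Special.roots {p : ℤ[X]} {B κ : ℕ} (h : Special p B κ) :
    ((p.map (Int.castRingHom ℂ)).roots.map fun β => max 1 ‖β‖).prod ≤ B := by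
  refine le_trans ?_ h.2.2.2.1
  refine prod_max_one_norm_roots_le_mahlerMeasure_of_one_le_leadingCoeff ?_
  rw [(h.1.map _).leadingCoeff, norm_one]

/-- the numbers -/
theorem num {r s γ n W : ℕ} (hr : 25 ≤ r) (hn : r * s ≤ n)
    (hW : s * W * (r - 3) ≤ 3 * γ + r * s + s * (r - 3)) :
    (88 * W + 46) * s * r ≤ 300 * (n + γ) := by
  obtain ⟨t, rfl⟩ : ∃ t, r = t + 3 := ⟨r - 3, by omega⟩
  rw [Nat.add_sub_cancel] at hW
  have ht : 22 ≤ t := by omega
  have h1 : (88 * W + 46) * s * (t + 3) * t ≤ 300 * (n + γ) * t := by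
    have h2 : 88 * (t + 3) * (s * W * t) ≤ 88 * (t + 3) * (3 * γ + (t + 3) * s + s * t) :=
      Nat.mul_le_mul_left _ hW
    have h3 : 300 * ((t + 3) * s + γ) * t ≤ 300 * (n + γ) * t := by gcongr
    refine le_trans ?_ h3
    have h4 : (88 * W + 46) * s * (t + 3) * t = 88 * (t + 3) * (s * W * t) + 46 * s * (t + 3) * t := by ring
    rw [h4]
    refine le_trans (Nat.add_le_add_right h2 _) ?_
    have h5 : 22 * γ ≤ t * γ := Nat.mul_le_mul_right _ ht
    have h6 : 22 * (s * t) ≤ t * (s * t) := Nat.mul_le_mul_right _ ht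
    have h7 : 22 * s ≤ t * s := Nat.mul_le_mul_right _ ht
    nlinarith
  exact Nat.le_of_mul_le_mul_right h1 (by omega)

end Pool.Agent.H85.SF
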