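import Pool.Agent.H85.SF.Lio
import Pool.Agent.H85.SF.Jel
import Pool.Agent.H12.SF.Wex
import Pool.Agent.H46.SF.Rtr
import Pool.Agent.H46.SF.Lev
import Pool.Agent.H90.SF.Pta
import Pool.Agent.H90.SF.Tmn
import Pool.Agent.H77.SF.Core
import Pool.Agent.H45.SF.Spe

/-! # [H85 SF ASM] THEOREM SF: assembly -/

namespace Pool.Agent.H85.SF

open Pool.Agent.H82.NS Pool.Agent.H8.OA Pool.Agent.H12.ON Pool.Agent.H12.OG Pool.Agent.H12.SF Pool.Agent.H90.SF
  Pool.Agent.H46.SF Filter

/-- a counterexample for the exponent `E` -/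
structure Bad (n E g B H : ℕ) (p : Polynomial ℤ) (G : MvPolynomial (Fin 2) ℤ) (x y : ℤ) : Prop where
  sp : Special p B (300 * (n + g))
  deg : G.totalDegree ≤ n
  irr : Irreducible (MvPolynomial.map (Int.castRingHom ℚ) G)
  inf : AtInf p G
  gen : GenusLE G g
  h2 : 2 ≤ H
  cf : ∀ m, |MvPolynomial.coeff m G| ≤ (H : ℤ)
  z : MvPolynomial.eval ![x, y] G = 0
  big : ((B : ℤ) * H) ^ E < max |x| |y|

private theorem deg1 {G : MvPolynomial (Fin 2) ℤ} (h : Irreducible (MvPolynomial.map (Int.castRingHom ℚ) G)) :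
    1 ≤ G.totalDegree := by
  by_contra hc
  have h0 : G.totalDegree = 0 := by omega
  rw [MvPolynomial.totalDegree_eq_zero_iff_eq_C] at h0
  rw [h0, MvPolynomial.map_C] at h
  by_cases ha : (Int.castRingHom ℚ) (MvPolynomial.coeff 0 G) = 0
  · rw [ha, MvPolynomial.C_0] at h
    exact not_irreducible_zero h
  · exact h.not_isUnit ((isUnit_iff_ne_zero.2 ha).map MvPolynomial.C)

private theorem eis {r : ℕ} (hr : 2 ≤ r) : (Polynomial.X ^ r - Polynomial.C (2 : ℤ)).Monic ∧
    Irreducible (Polynomial.X ^ r - Polynomial.C (2 : ℤ)) ∧ (Polynomial.X ^ r - Polynomial.C (2 : ℤ)).natDegree = r := by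
  have hm : (Polynomial.X ^ r - Polynomial.C (2 : ℤ)).Monic := Polynomial.monic_X_pow_sub_C 2 (by omega)
  have hd : (Polynomial.X ^ r - Polynomial.C (2 : ℤ)).natDegree = r := Polynomial.natDegree_X_pow_sub_C
  refine ⟨hm, ?_, hd⟩
  have hpr : (Ideal.span {(2 : ℤ)}).IsPrime :=
    (Ideal.span_singleton_prime (by norm_num)).2 Int.prime_two
  have he : (Polynomial.X ^ r - Polynomial.C (2 : ℤ)).IsEisensteinAt (Ideal.span {(2 : ℤ)}) := by
    refine ⟨?_, ?_, ?_⟩
    · rw [hm.leadingCoeff]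
      intro h
      rw [Ideal.mem_span_singleton] at h
      omega
    · intro i hi
      rw [hd] at hi
      rw [Polynomial.coeff_sub, Polynomial.coeff_X_pow, if_neg (by omega), Polynomial.coeff_C, zero_sub]
      split_ifs
      · exact Ideal.neg_mem_iff _ |>.2 (Ideal.mem_span_singleton_self _)
      · rw [neg_zero]; exact Ideal.zero_mem _
    · rw [Polynomial.coeff_sub, Polynomial.coeff_X_pow, if_neg (by omega), Polynomial.coeff_C_zero, zero_sub,
        Ideal.neg_mem_iff, Ideal.span_singleton_pow, Ideal.mem_span_singleton]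
      norm_num
  exact he.irreducible hpr hm.isPrimitive (by rw [hd]; omega)

private theorem w_ex {r s γ : ℕ} (hr : 4 ≤ r) (hs : 1 ≤ s) :
    ∃ W, 1 ≤ W ∧ 3 * γ + r * s ≤ s * W * (r - 3) ∧ s * W * (r - 3) ≤ 3 * γ + r * s + s * (r - 3) := by
  have h0 : 0 < s * (r - 3) := Nat.mul_pos hs (by omega)
  refine ⟨(3 * γ + r * s) / (s * (r - 3)) + 1, Nat.succ_pos _, ?_, ?_⟩
  · have h1 := Nat.lt_mul_div_succ (3 * γ + r * s) h0
    have h2 : s * ((3 * γ + r * s) / (s * (r - 3)) + 1) * (r - 3) =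
        s * (r - 3) * ((3 * γ + r * s) / (s * (r - 3)) + 1) := by ring
    rw [h2]
    exact h1.le
  · have h1 := Nat.mul_div_le (3 * γ + r * s) (s * (r - 3))
    have h2 : s * ((3 * γ + r * s) / (s * (r - 3)) + 1) * (r - 3) =
        s * (r - 3) * ((3 * γ + r * s) / (s * (r - 3))) + s * (r - 3) := by ring
    rw [h2]
    exact Nat.add_le_add_right h1 _

theorem main_a (n : ℕ) : ∃ E : ℕ, ∀ (g B H : ℕ) (p : Polynomial ℤ) (G : MvPolynomial (Fin 2) ℤ),
    Special p B (300 * (n + g)) → G.totalDegree ≤ n → Irreducible (MvPolynomial.map (Int.castRingHom ℚ) G) →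
      AtInf p G → GenusLE G g → 2 ≤ H → (∀ m, |MvPolynomial.coeff m G| ≤ (H : ℤ)) →
        ∀ x y : ℤ, MvPolynomial.eval ![x, y] G = 0 → max |x| |y| ≤ ((B : ℤ) * H) ^ E := by
  obtain ⟨N₀, hw⟩ := wex n
  obtain ⟨N₁, hnr⟩ := noreal n
  by_contra hcon
  have hex : ∀ N : ℕ, ∃ (g B H : ℕ) (p : Polynomial ℤ) (G : MvPolynomial (Fin 2) ℤ) (x y : ℤ),
      Bad n (N + N₀ + N₁) g B H p G x y := by
    intro N
    by_contra h
    refine hcon ⟨N + N₀ + N₁, fun g B H p G h1 h2 h3 h4 h5 h6 h7 x y h8 => ?_⟩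
    by_contra h9
    exact h ⟨g, B, H, p, G, x, y, h1, h2, h3, h4, h5, h6, h7, h8, not_le.1 h9⟩
  choose g B H p G x y hb using hex
  have hB1 : ∀ N, 1 ≤ B N := fun N => (hb N).sp.B1
  have hHB : ∀ N, 2 ≤ B N * H N := fun N => by
    have h1 := hB1 N
    have h2 := (hb N).h2
    nlinarith
  have hHH : ∀ N, H N ≤ B N * H N := fun N => Nat.le_mul_of_pos_left _ (hB1 N)
  -- real zeros
  have hreal : ∀ N, ∃ α : ℝ, Polynomial.aeval α (p N) = 0 := by
    intro N
    by_contra h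
    push Not at h
    have h1 := hnr (p N) (G N) (H N) (x N) (y N) h (hb N).deg (hb N).irr (hb N).inf (hb N).h2 (hb N).cf (hb N).z
    have h2 := (hb N).big
    have h3 : (H N : ℤ) ^ N₁ ≤ ((B N : ℤ) * H N) ^ (N + N₀ + N₁) := by
      have h4 : H N ^ N₁ ≤ (B N * H N) ^ (N + N₀ + N₁) :=
        (Nat.pow_le_pow_left (hHH N) _).trans (Nat.pow_le_pow_right (by have := hHB N; omega) (by omega))
      exact_mod_cast h4
    exact absurd (h1.trans h3) (not_le.2 h2)
  have hkap : ∀ N, 300 * (n + g N) ≤ (p N).natDegree * ((p N).natDegree + 1) := fun N => by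
    obtain ⟨α, hα⟩ := hreal N
    exact (hb N).sp.kappa hα
  have hn1 : 1 ≤ n := (deg1 (hb 0).irr).trans (hb 0).deg
  have hp3 : ∀ N, 3 ≤ (p N).natDegree := by
    intro N
    have h1 := hkap N
    by_contra h2
    have h3 : (p N).natDegree ≤ 2 := by omega
    have h4 : (p N).natDegree * ((p N).natDegree + 1) ≤ 2 * 3 := Nat.mul_le_mul h3 (by omega)
    omega
  have hinp : ∀ N, Inp n (p N) (G N) (B N * H N) (x N) (y N) := fun N =>
    { deg := (hb N).deg
      irr := (hb N).irr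
      inf := (hb N).inf
      h2 := hHB N
      cf := fun m => ((hb N).cf m).trans (by exact_mod_cast hHH N)
      z := (hb N).z
      pm := (hb N).sp.1
      pi := (hb N).sp.2.1
      p3 := hp3 N
      pc := fun i => ((hb N).sp.coeff i).trans (by
        have h1 : (B N : ℤ) ≤ ((B N * H N : ℕ) : ℤ) := by
          have h2 : B N ≤ B N * H N := Nat.le_mul_of_pos_right _ (by have := (hb N).h2; omega)
          exact_mod_cast h2
        exact mul_le_mul_of_nonneg_left h1 (by positivity)) }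
  have hbig : ∀ N, ((B N * H N : ℕ) : ℤ) ^ (N + N₀) < max |x N| |y N| := fun N => by
    refine lt_of_le_of_lt ?_ (hb N).big
    push_cast
    have h1 : (1 : ℤ) ≤ (B N : ℤ) * H N := by
      have := hHB N
      exact_mod_cast (by omega : 1 ≤ B N * H N)
    exact pow_le_pow_right₀ h1 (by omega)
  obtain ⟨r, d, Gh, P, al, γ, gg, c, hW⟩ := hw hinp hbig
  -- the numbers
  have hrn : r ≤ n := hW.rd.trans hW.dn
  have hr25 : 25 ≤ r := by
    obtain ⟨N, hN⟩ := hW.nr.exists
    have h1 := hkap N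
    have h2 := hp3 N
    rw [hN] at h1 h2
    have h3 : 300 * r ≤ r * (r + 1) := by nlinarith
    have h4 : 300 ≤ r + 1 := by
      refine Nat.le_of_mul_le_mul_left (c := r) ?_ (by omega)
      linarith
    omega
  have hgn : ∀ᶠ N in UU, g N ≤ n * (n + 1) := by
    filter_upwards [hW.nr] with N hN
    have h1 := hkap N
    rw [hN] at h1
    have h2 : r * (r + 1) ≤ n * (n + 1) := Nat.mul_le_mul hrn (by omega)
    omega
  obtain ⟨γ₀, -, hγ₀⟩ := ult_fin (f := fun N => min (g N) (n * (n + 1))) (M := n * (n + 1)) (fun N => min_le_right _ _)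
  have hgγ : ∀ᶠ N in UU, g N = γ₀ := by
    filter_upwards [hgn, hγ₀] with N h1 h2
    rwa [min_eq_left h1] at h2
  have hRi := rie_tr hW (Eventually.of_forall fun N => (hb N).irr) (gen := γ₀) (by
    filter_upwards [hgγ] with N hN
    rw [← hN]
    exact (hb N).gen)
  obtain ⟨π, e, s, z, h0⟩ := pt0_ex hW.ff hW.rc hW.inf hW.uni hW.pi hW.gP
  have hgen := gen_of hRi hW.ff hW.inf hW.fin h0.π0 h0.πm h0.unf h0.e1 h0.x1 h0.x2 hW.pi hW.gO hW.gP h0.zO
    h0.zi h0.zs
  have hpt := h0.pt hgen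
  have hrs : r * s ≤ n := by
    have h1 := h0.es
    rw [hW.pd] at h1
    calc r * s = 1 * (r * s) := (one_mul _).symm
      _ ≤ e * (r * s) := Nat.mul_le_mul_right _ h0.e1
      _ ≤ _ := h1
      _ ≤ d := hW.fin
      _ ≤ n := hW.dn
  obtain ⟨W, hW0, hW1, hW2⟩ := w_ex (γ := γ₀) (show 4 ≤ r by omega) h0.s1
  have hnum := num hr25 hrs hW2
  -- the sequence of polynomials, of degree `r` for all `N`
  obtain ⟨p', hp'⟩ : ∃ p' : ℕ → Polynomial ℤ, ∀ N, p' N =
      if (p N).natDegree = r then p N else Polynomial.X ^ r - Polynomial.C 2 := ⟨_, fun _ => rfl⟩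
  have hpp : ∀ᶠ N in UU, p' N = p N := by
    filter_upwards [hW.nr] with N hN
    rw [hp', if_pos hN]
  obtain ⟨e1, e2, e3⟩ := eis (r := r) (by omega)
  have hPC : PCl (fun N => B N * H N) r p' P :=
    { mon := fun N => by
        rw [hp']
        split_ifs
        · exact (hb N).sp.1
        · exact e1
      irr := fun N => by
        rw [hp']
        split_ifs
        · exact (hb N).sp.2.1
        · exact e2
      deg := fun N => by
        rw [hp']
        split_ifs with h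
        · exact h
        · exact e3
      Pdeg := hW.pd
      co := fun i => by
        rw [hW.pc i]
        refine cl_eq.2 ?_
        filter_upwards [hpp] with N hN
        rw [hN] }
  have hx : ((xl c (fun N => B N * H N) x y : LL (fun N => B N * H N) x y) : QS) ∈ ZS := by
    exact mem_zs.mpr ⟨fun N => x N + c * y N, rfl⟩
  obtain ⟨m, C₀, hT⟩ := tmn hx rfl hPC (show 4 ≤ r by omega) hpt hW0 hW1
  obtain ⟨N, hN1, hN2, hN3, α, ϖ, z', b, e', Y, hα, hϖ, hD⟩ :=
    (hpp.and (hW.nr.and (hgγ.and (hT (max C₀ 1) (le_max_left _ _) (Pool.Agent.H77.SF.E0 r s m W))))).exists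
  rw [hN1] at hα hD
  obtain ⟨u, v, hv, hu, hvB, hd⟩ := (hb N).sp.2.2.2.2 α hα
  have hBB : (B N : ℝ) ≤ (((B N * H N : ℕ) : ℝ) + 2) ^ max C₀ 1 := by
    have h1 : (1 : ℝ) ≤ ((B N * H N : ℕ) : ℝ) + 2 := by
      have := Nat.cast_nonneg (α := ℝ) (B N * H N)
      linarith
    have h2 : (B N : ℝ) ≤ ((B N * H N : ℕ) : ℝ) := by
      exact_mod_cast Nat.le_mul_of_pos_right _ (by have := (hb N).h2; omega)
    calc (B N : ℝ) ≤ ((B N * H N : ℕ) : ℝ) + 2 := by linarith
      _ ≤ _ := le_self_pow₀ h1 (by have := le_max_right C₀ 1; omega)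
  have hDat := hD (B N) u v (by exact_mod_cast hB1 N) hBB (hb N).sp.roots (by exact_mod_cast hu) hv
    (by exact_mod_cast hvB)
  refine Pool.Agent.H77.SF.core hDat hϖ ?_
  rw [hN2] at hd
  have hr0 : r ≠ 0 := by omega
  refine (pow_le_one_iff_of_nonneg (by positivity) hr0).1 ?_
  refine le_trans ?_ hd
  rw [mul_pow, ← pow_mul]
  refine mul_le_mul_of_nonneg_left ?_ (by positivity)
  refine pow_le_pow_right₀ ?_ ?_
  · have h1 : (1 : ℝ) ≤ 2 ^ r := one_le_pow₀ (by norm_num)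
    have h2 : (1 : ℝ) ≤ B N := by exact_mod_cast hB1 N
    nlinarith
  · rw [hN3]
    exact hnum

end Pool.Agent.H85.SF
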