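import Pool.Agent.H85.SF.Asm

/-! # [H85 SF FIN] THEOREM SF -/

namespace Pool.Agent.H85.SF

theorem sf : Statement :=
  ⟨main_a, fun r a κ h1 h2 h3 h4 => Pool.Agent.H45.SF.special_fam r a κ h1 h2 h3 h4⟩

end Pool.Agent.H85.SF
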