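import Pool.Agent.H90.SF.Esx
import Pool.Agent.H90.SF.Lbp

/-! # [SF J6] Geometric jets with levels

As `geo_jets` (H90/SF/Geo.lean) with general pole order `N` and `U` coefficients: `m₀ = 2γ/ρ + 1 ≤ N`, `T` a set of geometric points with
`U |T| + γ ≤ ρ (N - m₀)`: for given `τ q` with pole order at most `N` there is `φ ∈ Lb N` with `τ q - φ q` of pole order at most `N - U` for `q ∈ T`. -/

namespace Pool.Agent.H85.SF

open Pool.Agent.H90.SF Pool.Agent.H82.NS Pool.Agent.H8.OA Pool.Agent.H12.ON Pool.Agent.H12.OG IntermediateField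

private theorem gej_mono {F : Type} [Field F] {f : LaurentSeries F} {n m : ℤ} (h : Pole f n)
    (hnm : n ≤ m) : Pole f m := fun i hi => h i (by omega)

private theorem gej_sub {F : Type} [Field F] {f g : LaurentSeries F} {n : ℤ} (hf : Pole f n)
    (hg : Pole g n) : Pole (f - g) n := by
  intro i hi
  rw [HahnSeries.coeff_sub, hf i hi, hg i hi, sub_zero]

private theorem gej_mul {F : Type} [Field F] {f g : LaurentSeries F} {n m : ℤ} (hf : Pole f n)
    (hg : Pole g m) : Pole (f * g) (n + m) := by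
  intro i hi
  rw [HahnSeries.coeff_mul]
  refine Finset.sum_eq_zero fun p hp => ?_
  rw [Finset.mem_antidiagonal] at hp
  obtain ⟨-, -, h3⟩ := hp
  rcases lt_or_ge p.1 (-n) with h4 | h4
  · rw [hf _ h4, zero_mul]
  · rw [hg p.2 (by omega), mul_zero]

private theorem gej_ex {F : Type} [Field F] (f : LaurentSeries F) : ∃ N : ℕ, Pole f N := by
  refine ⟨(-f.order).toNat, fun i hi => ?_⟩
  have h1 := Int.self_le_toNat (-f.order)
  exact HahnSeries.coeff_eq_zero_of_lt_order (by omega)

theorem gej {k L F : Type} [Field k] [CharZero k] [Field L] [Algebra k L] [Field F] [Algebra k F] [IsAlgClosed F]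
    [Algebra.IsAlgebraic k F] {x : L} {O : ValuationSubring L} {P : Polynomial k} {g π : L} {s γ : ℕ} {z : Fin s → L}
    (h : Pt k x O P g π s γ z) (hρ0 : 0 < P.natDegree * s) {N U : ℕ}
    (hm0 : 2 * γ / (P.natDegree * s) + 1 ≤ N)
    {e : Fin (P.natDegree * s) → (L →ₐ[k] LaurentSeries F)} (he : Es k O π e)
    {T : Finset (Fin (P.natDegree * s))}
    (hT : U * T.card + γ ≤ P.natDegree * s * (N - (2 * γ / (P.natDegree * s) + 1)))
    {τ : Fin (P.natDegree * s) → LaurentSeries F} (hτ : ∀ q, Pole (τ q) (N : ℤ)) :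
    ∃ φ ∈ Lb k x O π e N, ∀ q ∈ T, Pole (τ q - φ q) ((N : ℤ) - U) := by
  classical
  obtain ⟨m, v, hv, hvL, -, hdim⟩ := ls_fin h (N - (2 * γ / (P.natDegree * s) + 1))
  have hlt : U * T.card < m := by omega
  have hli := lb_dim (F := F) (e := e) h hρ0 hv
  have hmem : ∀ c : Fin m → F, (∑ i, c i • fun q => e q (v i)) ∈
      Lb k x O π e (N - (2 * γ / (P.natDegree * s) + 1)) := fun c =>
    Submodule.sum_mem _ fun i _ => Submodule.smul_mem _ _ (Submodule.subset_span ⟨v i, hvL i, rfl⟩)
  set n : ℕ := N - (2 * γ / (P.natDegree * s) + 1) with hn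
  set m0 : ℕ := 2 * γ / (P.natDegree * s) + 1 with hm0'
  -- the conditions
  let A : (Fin m → F) →ₗ[F] (T × Fin U → F) :=
    { toFun := fun c p => ∑ i, c i * (e p.1 (v i)).coeff (-(n : ℤ) + (p.2 : ℕ))
      map_add' := fun c d => by
        funext p
        simp only [Pi.add_apply, add_mul, Finset.sum_add_distrib]
      map_smul' := fun a c => by
        funext p
        simp only [Pi.smul_apply, smul_eq_mul, mul_assoc, Finset.mul_sum, RingHom.id_apply] }
  have hker : LinearMap.ker A ≠ ⊥ := by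
    refine LinearMap.ker_ne_bot_of_finrank_lt ?_
    rw [Module.finrank_fintype_fun_eq_card, Module.finrank_fintype_fun_eq_card, Fintype.card_prod,
      Fintype.card_coe, Fintype.card_fin, Fintype.card_fin]
    calc T.card * U = U * T.card := Nat.mul_comm _ _
      _ < m := hlt
  obtain ⟨c, hc, hc0⟩ := (Submodule.ne_bot_iff _).1 hker
  rw [LinearMap.mem_ker] at hc
  set f : Fin (P.natDegree * s) → LaurentSeries F := ∑ i, c i • fun q => e q (v i) with hf
  have hfm : f ∈ Lb k x O π e n := hmem c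
  have hf0 : f ≠ 0 := fun h0 => hc0 (funext (Fintype.linearIndependent_iff.1 hli c h0))
  have hfq : ∀ q, f q ≠ 0 := lb_ne h hfm hf0
  have hfc : ∀ q (j : ℤ), (f q).coeff j = ∑ i, c i * (e q (v i)).coeff j := by
    intro q j
    rw [hf, Finset.sum_apply, HahnSeries.coeff_sum]
    refine Finset.sum_congr rfl fun i _ => ?_
    rw [Pi.smul_apply, HahnSeries.coeff_smul, smul_eq_mul]
  have hfT : ∀ q ∈ T, Pole (f q) ((n : ℤ) - U) := by
    intro q hq j hj
    rcases lt_or_ge j (-(n : ℤ)) with h1 | h1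
    · exact lb_pole h he hfm q j h1
    · have h2 := congrFun hc (⟨q, hq⟩, ⟨(j + n).toNat, by omega⟩)
      have h3 : (-(n : ℤ) + ((j + n).toNat : ℕ)) = j := by omega
      rw [hfc]
      simp only [A, LinearMap.coe_mk, AddHom.coe_mk, Pi.zero_apply] at h2
      rw [h3] at h2
      exact h2
  -- the second step
  let τ' : Fin (P.natDegree * s) → LaurentSeries F := fun q => if q ∈ T then τ q / f q else 0
  choose Nq hNq using fun q => gej_ex (τ' q)
  obtain ⟨ψ, hψ, hψ2⟩ := lb_pp h he (Finset.univ.sup Nq) (τ := τ') (fun q =>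
    gej_mono (hNq q) (by exact_mod_cast Finset.le_sup (f := Nq) (Finset.mem_univ q)))
  have hmul := lb_mul h hfm hψ
  have hT' : ∀ q ∈ T, Pole (τ q - (f * ψ) q) ((N : ℤ) - U) := by
    intro q hq
    have h1 : τ q - (f * ψ) q = f q * (τ' q - ψ q) := by
      simp only [τ', if_pos hq, Pi.mul_apply]
      rw [mul_sub, mul_div_cancel₀ _ (hfq q)]
    rw [h1]
    have h2 := gej_mul (hfT q hq) (hψ2 q)
    exact gej_mono h2 (by omega)
  refine ⟨f * ψ, lb_desc h he hmul fun q => ?_, hT'⟩
  by_cases hq : q ∈ T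
  · have h1 : (f * ψ) q = τ q - (τ q - (f * ψ) q) := by ring
    rw [h1]
    exact gej_sub (hτ q) (gej_mono (hT' q hq) (by omega))
  · have h1 : Pole (ψ q) (m0 : ℤ) := by
      have h2 := hψ2 q
      simp only [τ', if_neg hq, zero_sub] at h2
      intro i hi
      have h3 := h2 i hi
      rw [HahnSeries.coeff_neg, neg_eq_zero] at h3
      exact h3
    rw [Pi.mul_apply]
    exact gej_mono (gej_mul (lb_pole h he hfm q) h1) (by omega)

end Pool.Agent.H85.SF
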